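import Pool.Agent.TH660.SD.Core
import Pool.Agent.H601R2.PP
import Pool.Agent.H673R2.Search
import Pool.Agent.NPC.Sat
import Pool.Agent.NPC.Classes
import Pool.Agent.H642R2.TMSim

/-!
# MP_65ccf5_lc: recognising strongly 2-divisible graphs is coNP-hard

The reduction is from the complement of SAT. Variables `0, …, M` (two literals each) and clauses
`0, …, M - 1`, such that clause `i` does not contain the variables `i`, `i + 1`. Two literals are
adjacent if they belong to different variables, the clause vertex `y i` is adjacent to the literals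
that are not in clause `i`, and there are paths `x i ± - a i - b i - y i - c i - d i - x (i+1) ±`.
These paths force all literals to have the same colour, so a satisfying assignment is a
monochromatic maximal clique. In an induced subgraph with a maximal clique of literals either all
clauses are satisfied or the chain of the paths is broken somewhere, and then the two parts can be
coloured independently.
-/

set_option autoImplicit false

namespace Pool.Agent.Results.MP_65ccf5_lc.CoNPHard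

open Pool.Agent.NPC Pool.Agent.H673R2 Pool.Agent.TH660.SD

/-! ### Strongly divisible graphs -/

/-- `K` is a maximal clique of the subgraph of `G` induced by `S`. -/
def MaxClique {V : Type} (G : SimpleGraph V) (S K : Set V) : Prop :=
  Maximal (fun L => L ⊆ S ∧ G.IsClique L) K

/-- The subgraph of `G` induced by `S` has a `k`-clique-colouring: no colour class contains a
maximal clique with at least two vertices. -/
def CliqueColourable {V : Type} (G : SimpleGraph V) (k : ℕ) (S : Set V) : Prop :=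
  ∃ c : V → Fin k, ∀ K, MaxClique G S K → K.Nontrivial → ∀ i, ∃ v ∈ K, c v ≠ i

/-- `G` is strongly `k`-divisible: every induced subgraph has a `k`-clique-colouring. -/
def StronglyDivisible {V : Type} (G : SimpleGraph V) (k : ℕ) : Prop :=
  ∀ S : Set V, CliqueColourable G k S

/-! ### Transfer -/

theorem transfer_good {N M : ℕ} {C : ℕ → Bool → ℕ → Prop} (G : SimpleGraph (Fin N))
    (f : Fin N → Vx) (hf : Function.Injective f)
    (hG : ∀ u v, G.Adj u v ↔ val M (f u) ∧ val M (f v) ∧ Adj C (f u) (f v))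
    (h : ∀ H : Set Vx, (∀ v ∈ H, val M v) → Good C H) : StronglyDivisible G 2 := by
  intro S
  obtain ⟨χ, hχ⟩ := h {w | (∃ u ∈ S, f u = w) ∧ val M w} (fun v hv => hv.2)
  refine ⟨fun u => if χ (f u) then 1 else 0, fun K hK hnt => ?_⟩
  have hval : ∀ u ∈ K, val M (f u) := by
    intro u hu
    obtain ⟨v, hv, hne⟩ := hnt.exists_ne u
    exact ((hG u v).1 (hK.prop.2 hu hv hne.symm)).1
  have hK' : MaxCl C {w | (∃ u ∈ S, f u = w) ∧ val M w} (f '' K) := by
    refine ⟨?_, ?_, ?_⟩
    · rintro _ ⟨u, hu, rfl⟩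
      exact ⟨⟨u, hK.prop.1 hu, rfl⟩, hval u hu⟩
    · rintro _ ⟨u, hu, rfl⟩ _ ⟨v, hv, rfl⟩ hne
      have huv : u ≠ v := fun e => hne (by rw [e])
      exact ((hG u v).1 (hK.prop.2 hu hv huv)).2.2
    · rintro _ ⟨⟨u, hu, rfl⟩, hvu⟩ hadj
      have h1 : insert u K ⊆ S ∧ G.IsClique (insert u K) := by
        refine ⟨Set.insert_subset hu hK.prop.1, hK.prop.2.insert fun v hv hne => ?_⟩
        have h2 := hadj (f v) ⟨v, hv, rfl⟩ (fun e => hne (hf e).symm)
        exact (hG u v).2 ⟨hvu, hval v hv, h2.symm⟩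
      exact ⟨u, hK.le_of_ge h1 (Set.subset_insert u K) (Set.mem_insert u K), rfl⟩
  have hnt' : (f '' K).Nontrivial := hnt.image hf
  obtain ⟨_, ⟨u, hu, rfl⟩, _, ⟨v, hv, rfl⟩, hne⟩ := hχ _ hK' hnt'
  intro i
  by_contra hno
  push Not at hno
  have e1 := hno u hu
  have e2 := hno v hv
  rw [← e2] at e1
  apply hne
  cases hcu : χ (f u) <;> cases hcv : χ (f v) <;> simp [hcu, hcv] at e1 ⊢

theorem transfer_not {N M : ℕ} {C : ℕ → Bool → ℕ → Prop} (G : SimpleGraph (Fin N))
    (f : Fin N → Vx) (hf : Function.Injective f) (hs : ∀ w, val M w → ∃ u, f u = w)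
    (hG : ∀ u v, G.Adj u v ↔ val M (f u) ∧ val M (f v) ∧ Adj C (f u) (f v))
    (h : StronglyDivisible G 2) : Good C {v | val M v} := by
  classical
  obtain ⟨c, hc⟩ := h Set.univ
  refine ⟨fun w => if hw : ∃ u, f u = w then decide (c hw.choose = 1) else false,
    fun K hK hnt => ?_⟩
  have hcol : ∀ u, (if hw : ∃ u', f u' = f u then decide (c hw.choose = 1) else false) =
      decide (c u = 1) := by
    intro u
    have hw : ∃ u', f u' = f u := ⟨u, rfl⟩
    rw [dif_pos hw]
    have : hw.choose = u := hf hw.choose_spec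
    rw [this]
  have hK' : MaxClique G Set.univ {u | f u ∈ K} := by
    refine ⟨⟨Set.subset_univ _, ?_⟩, ?_⟩
    · intro u hu v hv hne
      exact (hG u v).2 ⟨hK.1 hu, hK.1 hv, hK.2.1 _ hu _ hv (fun e => hne (hf e))⟩
    · rintro L ⟨_, hL⟩ hle u hu
      obtain ⟨w, hw, hwne⟩ := hnt.exists_ne (f u)
      obtain ⟨v, rfl⟩ := hs w (hK.1 hw)
      have hvL : v ∈ L := hle hw
      have hadj := (hG u v).1 (hL hu hvL (fun e => hwne (by rw [e])))
      refine hK.2.2 _ hadj.1 fun z hz hne => ?_
      obtain ⟨z', rfl⟩ := hs z (hK.1 hz)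
      have hzL : z' ∈ L := hle hz
      exact ((hG z' u).1 (hL hzL hu (fun e => hne (by rw [e])))).2.2
  have hnt' : {u | f u ∈ K}.Nontrivial := by
    obtain ⟨w, hw, z, hz, hne⟩ := hnt
    obtain ⟨w', rfl⟩ := hs w (hK.1 hw)
    obtain ⟨z', rfl⟩ := hs z (hK.1 hz)
    exact ⟨w', hw, z', hz, fun e => hne (by rw [e])⟩
  have h1 := hc _ hK' hnt' 1
  have h0 := hc _ hK' hnt' 0
  obtain ⟨u, hu, hu1⟩ := h1
  obtain ⟨v, hv, hv0⟩ := h0
  refine ⟨f u, hu, f v, hv, ?_⟩
  simp only [hcol]
  have hv1 : c v = 1 := by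
    have := (c v).isLt
    have h' : (c v).val ≠ 0 := fun e => hv0 (Fin.ext e)
    exact Fin.ext (by simp; omega)
  simp [hu1, hv1]

/-! ### Adjacency matrices -/

/-- A square matrix with entries `true` and `false`, given by its rows. -/
abbrev Inst : Type := List (List Bool)

/-- The entry in row `u` and column `v`. -/
def entry (A : Inst) (u v : ℕ) : Bool := (A.getD u []).getD v false

/-- `A` is the adjacency matrix of a finite simple graph: it is square and symmetric, and the
entries on the diagonal are `false`. -/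
def Valid (A : Inst) : Prop :=
  (∀ r ∈ A, r.length = A.length) ∧ (∀ u v, entry A u v = entry A v u) ∧ ∀ u, entry A u u = false

/-- The graph with adjacency matrix `A` (the vertices are `0, …, n - 1`, where `n` is the number of
rows). -/
def graph (A : Inst) : SimpleGraph (Fin A.length) :=
  SimpleGraph.fromRel (fun u v => entry A u v = true)

/-! ### The reduction -/

/-- the occurrences of variables -/
def vs (φ : List (List (Bool × ℕ))) : List ℕ := φ.flatten.map Prod.snd

/-- the number of the last variable -/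
def Mx (φ : List (List (Bool × ℕ))) : ℕ := (vs φ).length + 2 * φ.length + 2

/-- the renamed clause -/
noncomputable def ren (l : List ℕ) (c : List (Bool × ℕ)) : List (Bool × ℕ) :=
  c.map (fun p => (p.1, index l p.2 + 1))

/-- clause `i` -/
noncomputable def cl (φ : List (List (Bool × ℕ))) (i : ℕ) : List (Bool × ℕ) :=
  if i + 1 = Mx φ then [(true, 0)]
  else if (vs φ).length < i ∧ (i - (vs φ).length) % 2 = 1 then
    ren (vs φ) (φ.getD ((i - (vs φ).length - 1) / 2) [])
  else [(true, Mx φ)]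

/-- the incidence relation of literals and clauses -/
def CC (φ : List (List (Bool × ℕ))) (i : ℕ) (t : Bool) (j : ℕ) : Prop :=
  i < Mx φ ∧ (t, j) ∈ cl φ i

open Classical in
/-- adjacency in one direction, in terms of the numbers of the vertices -/
noncomputable def adj1 (φ : List (List (Bool × ℕ))) (u v : ℕ) : Bool :=
  decide ((u % 7 < 2 ∧ v % 7 < 2 ∧ u / 7 ≠ v / 7) ∨
    (u / 7 < Mx φ ∧
      ((u % 7 = 2 ∧ v % 7 < 2 ∧ (decide (v % 7 = 1), v / 7) ∉ cl φ (u / 7)) ∨
      (v / 7 = u / 7 ∧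
        ((u % 7 = 3 ∧ v % 7 < 2) ∨ (u % 7 = 3 ∧ v % 7 = 4) ∨ (u % 7 = 4 ∧ v % 7 = 2) ∨
          (u % 7 = 2 ∧ v % 7 = 5) ∨ (u % 7 = 5 ∧ v % 7 = 6))) ∨
      (v / 7 = u / 7 + 1 ∧ u % 7 = 6 ∧ v % 7 < 2))))

/-- the adjacency matrix -/
noncomputable def red (φ : List (List (Bool × ℕ))) : Inst :=
  (List.range (7 * (Mx φ + 1))).map (fun u =>
    (List.range (7 * (Mx φ + 1))).map (fun v => adj1 φ u v || adj1 φ v u))

/-- the vertex with number `u` -/
def dec (u : ℕ) : Vx :=
  if u % 7 = 0 then Vx.x (u / 7) false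
  else if u % 7 = 1 then Vx.x (u / 7) true
  else if u % 7 = 2 then Vx.y (u / 7)
  else if u % 7 = 3 then Vx.a (u / 7)
  else if u % 7 = 4 then Vx.b (u / 7)
  else if u % 7 = 5 then Vx.c (u / 7)
  else Vx.d (u / 7)

theorem dec_inj : Function.Injective dec := by
  intro u v h
  unfold dec at h
  have hu := Nat.div_add_mod u 7
  have hv := Nat.div_add_mod v 7
  have hu7 := Nat.mod_lt u (show 0 < 7 by norm_num)
  have hv7 := Nat.mod_lt v (show 0 < 7 by norm_num)
  split_ifs at h <;> first | (injection h; omega) | (injection h with h1 h2; omega) |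
    (injection h with h1 h2; exact absurd h2 (by simp))

variable {φ : List (List (Bool × ℕ))}

/-- the number of a vertex -/
def enc : Vx → ℕ
  | Vx.x i s => 7 * i + (if s then 1 else 0)
  | Vx.y i => 7 * i + 2
  | Vx.a i => 7 * i + 3
  | Vx.b i => 7 * i + 4
  | Vx.c i => 7 * i + 5
  | Vx.d i => 7 * i + 6

theorem dec_enc (w : Vx) : dec (enc w) = w := by
  cases w with
  | x i s =>
    cases s
    · have h1 : (7 * i + 0) % 7 = 0 := by omega
      have h2 : (7 * i + 0) / 7 = i := by omega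
      simp only [enc, dec, Bool.false_eq_true, if_false, h1, h2, if_true]
    · have h1 : (7 * i + 1) % 7 = 1 := by omega
      have h2 : (7 * i + 1) / 7 = i := by omega
      simp [enc, dec, h1, h2]
  | y i =>
    have h1 : (7 * i + 2) % 7 = 2 := by omega
    have h2 : (7 * i + 2) / 7 = i := by omega
    simp [enc, dec, h1, h2]
  | a i =>
    have h1 : (7 * i + 3) % 7 = 3 := by omega
    have h2 : (7 * i + 3) / 7 = i := by omega
    simp [enc, dec, h1, h2]
  | b i =>
    have h1 : (7 * i + 4) % 7 = 4 := by omega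
    have h2 : (7 * i + 4) / 7 = i := by omega
    simp [enc, dec, h1, h2]
  | c i =>
    have h1 : (7 * i + 5) % 7 = 5 := by omega
    have h2 : (7 * i + 5) / 7 = i := by omega
    simp [enc, dec, h1, h2]
  | d i =>
    have h1 : (7 * i + 6) % 7 = 6 := by omega
    have h2 : (7 * i + 6) / 7 = i := by omega
    simp [enc, dec, h1, h2]

theorem enc_lt {M : ℕ} {w : Vx} (h : val M w) : enc w < 7 * (M + 1) := by
  cases w with
  | x i s => cases s <;> simp only [enc, val] at h ⊢ <;> simp <;> omega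
  | _ => simp only [enc, val] at h ⊢; omega

theorem adj1_iff {u v : ℕ} (hu : u < 7 * (Mx φ + 1)) (hv : v < 7 * (Mx φ + 1)) :
    adj1 φ u v = true ↔ val (Mx φ) (dec u) ∧ val (Mx φ) (dec v) ∧ Adj1 (CC φ) (dec u) (dec v) := by
  have hu' : u / 7 ≤ Mx φ := by omega
  have hv' : v / 7 ≤ Mx φ := by omega
  unfold adj1
  rw [decide_eq_true_iff]
  have hu7 : u % 7 = 0 ∨ u % 7 = 1 ∨ u % 7 = 2 ∨ u % 7 = 3 ∨ u % 7 = 4 ∨ u % 7 = 5 ∨ u % 7 = 6 := by
    omega
  have hv7 : v % 7 = 0 ∨ v % 7 = 1 ∨ v % 7 = 2 ∨ v % 7 = 3 ∨ v % 7 = 4 ∨ v % 7 = 5 ∨ v % 7 = 6 := by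
    omega
  rcases hu7 with h | h | h | h | h | h | h <;> rcases hv7 with h' | h' | h' | h' | h' | h' | h' <;>
    simp [dec, h, h', val, Adj1, CC, hu', hv'] <;> first | omega | tauto | skip

theorem red_length : (red φ).length = 7 * (Mx φ + 1) := by
  simp [red]

theorem entry_red (u v : ℕ) : entry (red φ) u v =
    (decide (u < 7 * (Mx φ + 1)) && decide (v < 7 * (Mx φ + 1)) && (adj1 φ u v || adj1 φ v u)) := by
  unfold entry red
  by_cases hu : u < 7 * (Mx φ + 1)
  · by_cases hv : v < 7 * (Mx φ + 1)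
    · simp [List.getD_eq_getElem?_getD, hu, hv]
    · simp [List.getD_eq_getElem?_getD, hu, hv]
  · simp [List.getD_eq_getElem?_getD, hu]

theorem not_adj1_self (u : ℕ) : adj1 φ u u = false := by
  by_contra h
  have h' : adj1 φ u u = true := by simpa using h
  unfold adj1 at h'
  rw [decide_eq_true_iff] at h'
  rcases h' with ⟨_, _, h⟩ | ⟨_, ⟨h, h', _⟩ | ⟨_, h⟩ | ⟨h, _⟩⟩
  · exact h rfl
  · omega
  · omega
  · omega

theorem red_valid : Valid (red φ) := by
  refine ⟨?_, ?_, ?_⟩
  · intro r hr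
    rw [red_length]
    unfold red at hr
    rw [List.mem_map] at hr
    obtain ⟨u, _, rfl⟩ := hr
    simp
  · intro u v
    rw [entry_red, entry_red, Bool.or_comm, Bool.and_comm (decide (u < _))]
  · intro u
    rw [entry_red, not_adj1_self]
    simp

theorem graph_adj (u v : Fin (red φ).length) : (graph (red φ)).Adj u v ↔
    val (Mx φ) (dec u) ∧ val (Mx φ) (dec v) ∧ Adj (CC φ) (dec u) (dec v) := by
  have hu : (u : ℕ) < 7 * (Mx φ + 1) := by rw [← red_length]; exact u.isLt
  have hv : (v : ℕ) < 7 * (Mx φ + 1) := by rw [← red_length]; exact v.isLt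
  have h1 := adj1_iff hu hv
  have h2 := adj1_iff hv hu
  unfold graph
  rw [SimpleGraph.fromRel_adj, entry_red, entry_red]
  simp only [hu, hv, decide_true, Bool.true_and, Bool.or_eq_true, h1, h2]
  constructor
  · rintro ⟨_, (h | h) | (h | h)⟩
    · exact ⟨h.1, h.2.1, Or.inl h.2.2⟩
    · exact ⟨h.2.1, h.1, Or.inr h.2.2⟩
    · exact ⟨h.2.1, h.1, Or.inr h.2.2⟩
    · exact ⟨h.1, h.2.1, Or.inl h.2.2⟩
  · rintro ⟨hu', hv', h⟩
    refine ⟨?_, Or.inl ?_⟩
    · rintro rfl
      rcases h with h | h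
      · have := h1.2 ⟨hu', hv', h⟩
        rw [not_adj1_self] at this
        exact absurd this (by simp)
      · have := h1.2 ⟨hu', hv', h⟩
        rw [not_adj1_self] at this
        exact absurd this (by simp)
    · rcases h with h | h
      · exact Or.inl ⟨hu', hv', h⟩
      · exact Or.inr ⟨hv', hu', h⟩

/-! ### The clauses -/

theorem index_lt {l : List ℕ} {v : ℕ} (h : v ∈ l) : index l v < l.length := by
  have := getElem?_index h
  exact (List.getElem?_eq_some_iff.1 this).1

theorem mem_vs {c : List (Bool × ℕ)} (hc : c ∈ φ) {p : Bool × ℕ} (hp : p ∈ c) : p.2 ∈ vs φ := by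
  unfold vs
  exact List.mem_map.2 ⟨p, List.mem_flatten.2 ⟨c, hc, hp⟩, rfl⟩

/-- the variables of a clause of the formula -/
theorem cl_cases {i : ℕ} (hi : i < Mx φ) :
    (i + 1 = Mx φ ∧ cl φ i = [(true, 0)]) ∨
    (i + 1 < Mx φ ∧ cl φ i = [(true, Mx φ)] ∧ ¬ ((vs φ).length < i ∧ (i - (vs φ).length) % 2 = 1)) ∨
    (i + 1 < Mx φ ∧ (vs φ).length < i ∧ (i - (vs φ).length) % 2 = 1 ∧
      ∃ c ∈ φ, cl φ i = ren (vs φ) c) := by
  unfold cl
  by_cases h1 : i + 1 = Mx φ
  · left
    rw [if_pos h1]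
    exact ⟨h1, rfl⟩
  right
  rw [if_neg h1]
  by_cases h2 : (vs φ).length < i ∧ (i - (vs φ).length) % 2 = 1
  · right
    rw [if_pos h2]
    refine ⟨by omega, h2.1, h2.2, ?_⟩
    have hk : (i - (vs φ).length - 1) / 2 < φ.length := by
      have := h2.1
      have := h2.2
      unfold Mx at h1 hi
      omega
    refine ⟨φ[(i - (vs φ).length - 1) / 2], List.getElem_mem hk, ?_⟩
    rw [List.getD_eq_getElem?_getD, List.getElem?_eq_getElem hk]
    rfl
  · left
    rw [if_neg h2]
    exact ⟨by omega, rfl, h2⟩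

theorem ren_var {c : List (Bool × ℕ)} (hc : c ∈ φ) {t : Bool} {j : ℕ}
    (h : (t, j) ∈ ren (vs φ) c) : 1 ≤ j ∧ j ≤ (vs φ).length := by
  unfold ren at h
  rw [List.mem_map] at h
  obtain ⟨p, hp, he⟩ := h
  have h1 := index_lt (mem_vs hc hp)
  simp only [Prod.mk.injEq] at he
  omega

theorem CC_h1 (i : ℕ) (s : Bool) : ¬ CC φ i s i ∧ ¬ CC φ i s (i + 1) := by
  have key : ∀ j, (j = i ∨ j = i + 1) → ¬ CC φ i s j := by
    rintro j hj ⟨hi, hm⟩
    have hM : Mx φ = (vs φ).length + 2 * φ.length + 2 := rfl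
    rcases cl_cases hi with ⟨h, e⟩ | ⟨h, e, _⟩ | ⟨h, h', _, c, hc, e⟩
    · rw [e] at hm
      simp only [List.mem_singleton, Prod.mk.injEq] at hm
      omega
    · rw [e] at hm
      simp only [List.mem_singleton, Prod.mk.injEq] at hm
      omega
    · rw [e] at hm
      have := ren_var hc hm
      omega
  exact ⟨key _ (Or.inl rfl), key _ (Or.inr rfl)⟩

theorem CC_h2 (α β : ℕ) (hαβ : α < β) (hβ : β ≤ Mx φ) (hne : ¬ (α = 0 ∧ β = Mx φ)) :
    ∃ i, α ≤ i ∧ i < β ∧ ∀ j t, α ≤ j → j ≤ β → ¬ CC φ i t j := by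
  have hM : Mx φ = (vs φ).length + 2 * φ.length + 2 := rfl
  -- the default clauses are not satisfied
  have hdef : ∀ i, i < β → α ≤ i → i + 1 < Mx φ →
      ¬ ((vs φ).length < i ∧ (i - (vs φ).length) % 2 = 1) → β < Mx φ →
      ∀ j t, α ≤ j → j ≤ β → ¬ CC φ i t j := by
    rintro i hiβ _ hi hn hβM j t _ hjβ ⟨hi', hm⟩
    rcases cl_cases hi' with ⟨h, e⟩ | ⟨h, e, _⟩ | ⟨h, h', h'', _⟩
    · omega
    · rw [e] at hm
      simp only [List.mem_singleton, Prod.mk.injEq] at hm
      omega
    · exact hn ⟨h', h''⟩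
  by_cases hβM : β = Mx φ
  · refine ⟨β - 1, by omega, by omega, ?_⟩
    rintro j t hj _ ⟨hi, hm⟩
    rcases cl_cases hi with ⟨h, e⟩ | ⟨h, e, _⟩ | ⟨h, _⟩
    · rw [e] at hm
      simp only [List.mem_singleton, Prod.mk.injEq] at hm
      omega
    · omega
    · omega
  · have hβM' : β < Mx φ := by omega
    by_cases hb : (vs φ).length < β - 1 ∧ (β - 1 - (vs φ).length) % 2 = 1
    · by_cases hαβ' : α = β - 1
      · refine ⟨β - 1, by omega, by omega, ?_⟩
        rintro j t hj _ ⟨hi, hm⟩
        rcases cl_cases hi with ⟨h, e⟩ | ⟨h, e, hn⟩ | ⟨h, h', h'', c, hc, e⟩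
        · omega
        · exact hn hb
        · rw [e] at hm
          have := ren_var hc hm
          omega
      · refine ⟨β - 2, by omega, by omega, ?_⟩
        refine hdef (β - 2) (by omega) (by omega) (by omega) ?_ hβM'
        rintro ⟨h1, h2⟩
        omega
    · exact ⟨β - 1, by omega, by omega, hdef (β - 1) (by omega) (by omega) (by omega) hb hβM'⟩

/-- a satisfying assignment gives one of the new formula -/
theorem sat_of_sat (h : SAT φ) : ∃ τ : ℕ → Bool, ∀ i < Mx φ, ∃ j ≤ Mx φ, CC φ i (τ j) j := by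
  obtain ⟨τ, hτ⟩ := h
  have hM : Mx φ = (vs φ).length + 2 * φ.length + 2 := rfl
  refine ⟨fun j => if j = 0 ∨ j = Mx φ then true else τ ((vs φ).getD (j - 1) 0), fun i hi => ?_⟩
  rcases cl_cases hi with ⟨_, e⟩ | ⟨_, e, _⟩ | ⟨_, _, _, c, hc, e⟩
  · refine ⟨0, by omega, hi, ?_⟩
    rw [e]
    simp
  · refine ⟨Mx φ, le_rfl, hi, ?_⟩
    rw [e]
    simp
  · obtain ⟨p, hp, hp'⟩ := hτ c hc
    have hlt := index_lt (mem_vs hc hp)
    refine ⟨index (vs φ) p.2 + 1, by omega, hi, ?_⟩
    have h1 : ¬ (index (vs φ) p.2 + 1 = 0 ∨ index (vs φ) p.2 + 1 = Mx φ) := by omega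
    rw [e]
    simp only [h1, if_false, Nat.add_sub_cancel]
    have h2 : (vs φ).getD (index (vs φ) p.2) 0 = p.2 := by
      rw [List.getD_eq_getElem?_getD, getElem?_index (mem_vs hc hp)]
      rfl
    rw [h2, hp']
    exact List.mem_map.2 ⟨p, hp, rfl⟩

/-- a satisfying assignment of the new formula gives one of the old formula -/
theorem sat_of_new {τ : ℕ → Bool} (hτ : ∀ i < Mx φ, ∃ j ≤ Mx φ, CC φ i (τ j) j) : SAT φ := by
  have hM : Mx φ = (vs φ).length + 2 * φ.length + 2 := rfl
  refine ⟨fun v => τ (index (vs φ) v + 1), fun c hc => ?_⟩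
  obtain ⟨k, hk, rfl⟩ := List.getElem_of_mem hc
  have hi : (vs φ).length + 1 + 2 * k < Mx φ := by omega
  obtain ⟨j, _, _, hm⟩ := hτ _ hi
  have e : cl φ ((vs φ).length + 1 + 2 * k) = ren (vs φ) φ[k] := by
    unfold cl
    rw [if_neg (by omega), if_pos (by omega)]
    have : ((vs φ).length + 1 + 2 * k - (vs φ).length - 1) / 2 = k := by omega
    rw [this, List.getD_eq_getElem?_getD, List.getElem?_eq_getElem hk]
    rfl
  rw [e] at hm
  unfold ren at hm
  rw [List.mem_map] at hm
  obtain ⟨p, hp, hpe⟩ := hm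
  simp only [Prod.mk.injEq] at hpe
  refine ⟨p, hp, ?_⟩
  simp only
  rw [hpe.2, hpe.1]

/-- **Correctness of the reduction.** -/
theorem red_correct (φ : List (List (Bool × ℕ))) :
    SAT φ ↔ ¬ StronglyDivisible (graph (red φ)) 2 := by
  have hinj : Function.Injective (fun u : Fin (red φ).length => dec u) :=
    fun u v h => Fin.ext (dec_inj h)
  constructor
  · intro h hs
    obtain ⟨τ, hτ⟩ := sat_of_sat h
    refine not_good_of_sat (C := CC φ) (Mx φ) (by unfold Mx; omega) τ hτ ?_
    refine transfer_not (graph (red φ)) (fun u => dec u) hinj (fun w hw => ?_) graph_adj hs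
    refine ⟨⟨enc w, ?_⟩, dec_enc w⟩
    rw [red_length]
    exact enc_lt hw
  · intro h
    by_contra hns
    apply h
    refine transfer_good (graph (red φ)) (fun u => dec u) hinj graph_adj fun H hH => ?_
    refine good_of_unsat (Mx φ) CC_h1 (fun α β => CC_h2 α β) (fun τ => ?_) H hH
    by_contra hno
    push Not at hno
    exact hns (sat_of_new hno)

/-! ### Polynomial time -/

theorem poly_vs : Poly vs := by
  unfold vs
  fun_prop

theorem poly_Mx : Poly Mx := by
  unfold Mx
  have := poly_vs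
  fun_prop

theorem uPoly_N : UPoly (fun φ : List (List (Bool × ℕ)) => 7 * (Mx φ + 1)) := by
  have h1 : UPoly (fun φ : List (List (Bool × ℕ)) => (vs φ).length) := UPoly.length poly_vs
  have h2 : UPoly (fun φ : List (List (Bool × ℕ)) => φ.length) := UPoly.length Poly.id
  unfold Mx
  exact UPoly.mul (UPoly.const 7) (UPoly.add (UPoly.add (UPoly.add h1
    (UPoly.mul (UPoly.const 2) h2)) (UPoly.const 2)) (UPoly.const 1))

theorem poly_ren : Poly (fun p : List ℕ × List (Bool × ℕ) => ren p.1 p.2) := by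
  unfold ren
  have h : Poly (fun p : (List ℕ × List (Bool × ℕ)) × (Bool × ℕ) => index p.1.1 p.2.2) :=
    Poly.index (by fun_prop) (by fun_prop)
  fun_prop

theorem poly_cl : Poly (fun p : List (List (Bool × ℕ)) × ℕ => cl p.1 p.2) := by
  unfold cl
  have h1 : Poly (fun p : List (List (Bool × ℕ)) × ℕ => Mx p.1) := poly_Mx.comp (Poly.fst Poly.id)
  have h2 : Poly (fun p : List (List (Bool × ℕ)) × ℕ => vs p.1) := poly_vs.comp (Poly.fst Poly.id)
  have h3 : Poly (fun p : List (List (Bool × ℕ)) × ℕ => (vs p.1).length) := Poly.length h2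
  have h4 : Poly (fun p : List (List (Bool × ℕ)) × ℕ =>
      ren (vs p.1) (p.1.getD ((p.2 - (vs p.1).length - 1) / 2) [])) :=
    poly_ren.comp (Poly.pair h2 (NPC.Poly.getD (by fun_prop) (by fun_prop) (by fun_prop)))
  refine Poly.ite (by fun_prop) (by fun_prop) (Poly.ite (by fun_prop) h4 (by fun_prop))

theorem poly_adj1 : Poly (fun p : List (List (Bool × ℕ)) × ℕ × ℕ => adj1 p.1 p.2.1 p.2.2) := by
  have h1 : Poly (fun p : List (List (Bool × ℕ)) × ℕ × ℕ => Mx p.1) :=
    poly_Mx.comp (Poly.fst Poly.id)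
  have h2 : Poly (fun p : List (List (Bool × ℕ)) × ℕ × ℕ => cl p.1 (p.2.1 / 7)) :=
    poly_cl.comp (Poly.pair (Poly.fst Poly.id) (by fun_prop))
  have h3 : Poly (fun p : List (List (Bool × ℕ)) × ℕ × ℕ => decide (p.2.2 % 7 = 1)) := by fun_prop
  unfold adj1
  refine PP.dec ?_
  refine PP.or ?_ (PP.and (PP.lt (by fun_prop) h1) (PP.or ?_ (PP.or ?_ ?_)))
  · exact PP.and (PP.lt (by fun_prop) (by fun_prop)) (PP.and (PP.lt (by fun_prop) (by fun_prop))
      (PP.ne (by fun_prop) (by fun_prop)))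
  · refine PP.and (PP.eq (by fun_prop) (by fun_prop)) (PP.and (PP.lt (by fun_prop) (by fun_prop))
      (PP.not (PP.mem (Poly.pair ?_ (by fun_prop)) h2)))
    exact h3.congr fun p => by congr
  · refine PP.and (PP.eq (by fun_prop) (by fun_prop)) (PP.or ?_ (PP.or ?_ (PP.or ?_ (PP.or ?_ ?_))))
    · exact PP.and (PP.eq (by fun_prop) (by fun_prop)) (PP.lt (by fun_prop) (by fun_prop))
    · exact PP.and (PP.eq (by fun_prop) (by fun_prop)) (PP.eq (by fun_prop) (by fun_prop))
    · exact PP.and (PP.eq (by fun_prop) (by fun_prop)) (PP.eq (by fun_prop) (by fun_prop))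
    · exact PP.and (PP.eq (by fun_prop) (by fun_prop)) (PP.eq (by fun_prop) (by fun_prop))
    · exact PP.and (PP.eq (by fun_prop) (by fun_prop)) (PP.eq (by fun_prop) (by fun_prop))
  · exact PP.and (PP.eq (by fun_prop) (by fun_prop)) (PP.and (PP.eq (by fun_prop) (by fun_prop))
      (PP.lt (by fun_prop) (by fun_prop)))

theorem red_poly : Poly red := by
  unfold red
  have hr : Poly (fun φ : List (List (Bool × ℕ)) => List.range (7 * (Mx φ + 1))) := uPoly_N.range
  refine NPC.Poly.map (F := fun φ u => (List.range (7 * (Mx φ + 1))).map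
    (fun v => adj1 φ u v || adj1 φ v u)) hr ?_
  refine NPC.Poly.map (F := fun (p : List (List (Bool × ℕ)) × ℕ) v => adj1 p.1 p.2 v || adj1 p.1 v p.2)
    (hr.comp (Poly.fst Poly.id)) ?_
  have h1 : Poly (fun p : (List (List (Bool × ℕ)) × ℕ) × ℕ => adj1 p.1.1 p.1.2 p.2) :=
    poly_adj1.comp (f := fun p : (List (List (Bool × ℕ)) × ℕ) × ℕ => (p.1.1, p.1.2, p.2))
      (by fun_prop)
  have h2 : Poly (fun p : (List (List (Bool × ℕ)) × ℕ) × ℕ => adj1 p.1.1 p.2 p.1.2) :=
    poly_adj1.comp (f := fun p : (List (List (Bool × ℕ)) × ℕ) × ℕ => (p.1.1, p.2, p.1.2))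
      (by fun_prop)
  exact Poly.or h1 h2

/-! ### The result -/

theorem hard : CoNPHardOn Valid (fun A => StronglyDivisible (graph A) 2) :=
  coNPHardOn_of hardI_SAT.toHardPr red_poly (fun _ _ => red_valid) fun φ _ => red_correct φ

/-- A function that decides whether a graph, given by its adjacency matrix, is strongly
2-divisible. -/
def Decides (D : List Bool → List Bool) : Prop :=
  ∀ A, Valid A → (D (bits A) = [true] ↔ StronglyDivisible (graph A) 2)

/-- **Recognising strongly 2-divisible graphs is `coNP`-hard** under polynomial-time many-one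
reductions: for every language `L` in `coNP` there is a polynomial-time computable function which
assigns to each word `x` the adjacency matrix of a finite simple graph which is strongly 2-divisible
if and only if `x ∈ L`. So the set of the strongly 2-divisible graphs is `coNP`-hard, and if
`P ≠ NP` then no polynomial-time algorithm decides whether a given graph is strongly 2-divisible. -/
theorem result :
    CoNPHardOn Valid (fun A => StronglyDivisible (graph A) 2) ∧
    CoNPHardP (fun A => Valid A ∧ StronglyDivisible (graph A) 2) ∧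
    (PneNP → ¬ ∃ D : List Bool → List Bool, PolyTime D ∧ Decides D) := by
  refine ⟨hard, ?_, ?_⟩
  · intro L hL
    obtain ⟨f, hf, hv, hfL⟩ := hard L hL
    refine ⟨fun x => bits (f x), hf, fun x => ?_⟩
    rw [bits_mem_lang, hfL x]
    exact ⟨fun h => ⟨hv x, h⟩, fun h => h.2⟩
  · rintro ⟨L, hL, hL'⟩ ⟨D, hD, hd⟩
    apply hL'
    have hLc : InCoNP Lᶜ := by
      unfold InCoNP
      rwa [compl_compl]
    obtain ⟨f, hf, hv, hfL⟩ := hard Lᶜ hLc
    have hDf : PolyTime (fun x => D (bits (f x))) :=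
      H642R2.TMSim.polyTime_comp (g := D) (f := fun x => bits (f x)) hD hf
    refine ⟨fun x => [!decide (D (bits (f x)) = [true])], ?_, fun x => ?_⟩
    · exact polyTime_test (g := fun y => !decide (y = [true])) hDf
        (NPC.Poly.not (Poly.decide_eq Poly.id (NPC.Poly.const _)))
    · have h1 := (hfL x).trans (hd _ (hv x)).symm
      rw [Set.mem_compl_iff] at h1
      by_cases hx : D (bits (f x)) = [true]
      · simp only [hx, decide_true, Bool.not_true]
        exact ⟨fun h => absurd h (h1.2 hx), fun h => by simp at h⟩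
      · simp only [hx, decide_false, Bool.not_false, iff_true]
        by_contra h
        exact hx (h1.1 h)

end Pool.Agent.Results.MP_65ccf5_lc.CoNPHard
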